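import Mathlib
import Pool.Agent.Run7.h330.FN.Base
import Pool.Agent.Run7.h330.FN.Cat

set_option autoImplicit false

/-!
# The prime factors of Fermat numbers with almost every base or almost every amplitude

Put `F α β m = ⌊β α ^ (2 ^ m)⌋ + 1`, so that `F 2 1 m` is the `m`-th Fermat number, and let
`W` be the product, with multiplicity, of the prime factors of `F α β m` that are larger than
`2 ^ (m + 2)`.  For `m ≥ 2` the Fermat number is its own `W`.

For every base `α > 1` and almost every amplitude `β > 0`, and for every amplitude `β > 0` and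
almost every base `α > 1`, the number `W` is squarefree for all large `m` and has
`m log 2 + O(√(m log m))` prime factors, with any constant `κ > √(2 log 2)`.  In particular
`F α β m` is prime for finitely many `m` only.  Neither statement is true generically: for every
`α > 1` and all `β > 0` outside a meagre set, and for every `β > 0` and all `α > 1` outside a
meagre set, `F α β m` is prime for infinitely many `m`.
-/

namespace Pool.Agent.Results.MP_37e5fa_nt.PrimeFactorsAlmostEverywhere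

open Filter MeasureTheory
open Pool.Agent.Run7.h330.FN

/-- A real `κ > c` is above some `c + 1 / (j + 1)`. -/
lemma exists_step {c κ : ℝ} (h : c < κ) : ∃ j : ℕ, c + 1 / ((j : ℝ) + 1) ≤ κ := by
  obtain ⟨j, hj⟩ := exists_nat_one_div_lt (sub_pos.2 h)
  exact ⟨j, by linarith⟩

lemma good_mono {κ κ' : ℝ} (h : κ ≤ κ') {m n : ℕ} (hg : Good κ m n) : Good κ' m n :=
  ⟨hg.1, hg.2.trans (mul_le_mul_of_nonneg_right h (Real.sqrt_nonneg _))⟩

lemma fermat_rough {m : ℕ} (hm : 2 ≤ m) : rough (2 ^ (m + 2)) (F 2 1 m) = 2 ^ (2 ^ m) + 1 := by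
  have e : F 2 1 m = 2 ^ (2 ^ m) + 1 := by
    unfold F
    rw [one_mul]
    have : ((2 : ℝ) ^ (2 ^ m)) = ((2 ^ (2 ^ m) : ℕ) : ℝ) := by push_cast; rfl
    rw [this, Nat.floor_natCast]
  rw [e]
  unfold rough
  have h : (Nat.primeFactorsList (2 ^ (2 ^ m) + 1)).filter (fun r => 2 ^ (m + 2) < r) =
      Nat.primeFactorsList (2 ^ (2 ^ m) + 1) := by
    rw [List.filter_eq_self]
    intro p hp
    have hpp := Nat.prime_of_mem_primeFactorsList hp
    have hpd := Nat.dvd_of_mem_primeFactorsList hp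
    obtain ⟨k, hk⟩ := Nat.fermat_primeFactors_one_lt m p (by omega) hpp hpd
    have hk0 : 1 ≤ k := by
      rcases Nat.eq_zero_or_pos k with h0 | h0
      · subst h0
        exact absurd hk (by have := hpp.one_lt; omega)
      · exact h0
    have : 2 ^ (m + 2) < p := by
      rw [hk]
      have : 1 * 2 ^ (m + 2) ≤ k * 2 ^ (m + 2) := Nat.mul_le_mul_right _ hk0
      omega
    exact decide_eq_true this
  rw [h]
  exact Nat.prod_primeFactorsList (by positivity)

/-- **The prime factors of Fermat numbers with almost every base or amplitude.** -/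
theorem result :
    (∀ m : ℕ, 2 ≤ m → rough (2 ^ (m + 2)) (F 2 1 m) = 2 ^ (2 ^ m) + 1) ∧
    (∀ α : ℝ, 1 < α → ∀ᵐ β : ℝ, 0 < β → ∀ κ : ℝ, Real.sqrt (2 * Real.log 2) < κ →
      ∀ᶠ m : ℕ in atTop, Squarefree (rough (2 ^ (m + 2)) (F α β m)) ∧
        |((rough (2 ^ (m + 2)) (F α β m)).primeFactors.card : ℝ) - m * Real.log 2| ≤
          κ * Real.sqrt (m * Real.log m)) ∧
    (∀ β : ℝ, 0 < β → ∀ᵐ α : ℝ, 1 < α → ∀ κ : ℝ, Real.sqrt (2 * Real.log 2) < κ →
      ∀ᶠ m : ℕ in atTop, Squarefree (rough (2 ^ (m + 2)) (F α β m)) ∧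
        |((rough (2 ^ (m + 2)) (F α β m)).primeFactors.card : ℝ) - m * Real.log 2| ≤
          κ * Real.sqrt (m * Real.log m)) ∧
    (∀ α : ℝ, 1 < α → ∀ᶠ β in residual ℝ, 0 < β → ∃ᶠ m : ℕ in atTop, (F α β m).Prime) ∧
    (∀ β : ℝ, 0 < β → ∀ᶠ α in residual ℝ, 1 < α → ∃ᶠ m : ℕ in atTop, (F α β m).Prime) := by
  have hκ : ∀ j : ℕ, Real.sqrt (2 * Real.log 2) < Real.sqrt (2 * Real.log 2) + 1 / ((j : ℝ) + 1) :=
    fun j => by
      have : (0 : ℝ) < 1 / ((j : ℝ) + 1) := by positivity
      linarith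
  refine ⟨fun m hm => fermat_rough hm, ?_, ?_, fun α hα => cat_amp hα, fun β hβ => cat_base hβ⟩
  · intro α hα
    have h := ae_all_iff.2 fun j : ℕ => amp (sparse_bad (hκ j)) hα
    filter_upwards [h] with β hβ h0 κ hk
    obtain ⟨j, hj⟩ := exists_step hk
    filter_upwards [hβ j h0] with m hm
    exact good_mono hj (not_not.1 hm)
  · intro β hβ
    have h := ae_all_iff.2 fun j : ℕ => base (sparse_bad (hκ j)) hβ
    filter_upwards [h] with α hα h0 κ hk
    obtain ⟨j, hj⟩ := exists_step hk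
    filter_upwards [hα j h0] with m hm
    exact good_mono hj (not_not.1 hm)

end Pool.Agent.Results.MP_37e5fa_nt.PrimeFactorsAlmostEverywhere
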